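import Mathlib
import Pool.Agent.TH394.HadN179
import Pool.Agent.TH394.HadN223
import Pool.Agent.TH394.HadN311
import Pool.Agent.TH394.HadN347
import Pool.Agent.TH394.HadN419
import Pool.Agent.TH394.HadN443
import Pool.Agent.TH394.HadN479
import Pool.Agent.TH394.HadN487
import Pool.Agent.TH394.HadN491
import Pool.Agent.TH394.HadN919
import Pool.Agent.TH510.HadN359
import Pool.Agent.TH512.MaxDet
import Pool.Agent.TH786.Had668
import Pool.Agent.TH786.Had1132

/-!
# Thirteen new exact values of the maximal determinant of sign matrices

Let `Δ(n)` be the largest absolute value of the determinant of an `n × n` matrix with entries `±1`.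
Hadamard's bound is `Δ(n) ≤ n ^ (n / 2)`. We show `Δ(n) = n ^ (n / 2)` for
`n = 668, 716, 892, 1132, 1244, 1388, 1436, 1676, 1772, 1916, 1948, 1964` and `3676`. The first
twelve were all the multiples of four below 2000 for which it was not known whether `Δ(n)` is equal
to `n ^ (n / 2)`; the smallest of them was 668.

The extremal matrices are the new Hadamard matrices of the team: helper394 (716, 892, 1244, 1388,
1676, 1772, 1916, 1948, 1964, 3676), helper786 (668, 1132) and helper510 (1436).
-/

set_option autoImplicit false

open Matrix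

namespace Pool.Agent.Results.MP_008adc_co.NewExactValues

/-- for these `n` the largest absolute value of the determinant of an `n × n` matrix with entries
`1` and `-1` is `n ^ (n / 2)` -/
theorem result : ∀ n ∈ ([668, 716, 892, 1132, 1244, 1388, 1436, 1676, 1772, 1916, 1948, 1964,
    3676] : List ℕ),
    IsGreatest {x : ℝ | ∃ A : Matrix (Fin n) (Fin n) ℝ,
      (∀ i j, A i j = 1 ∨ A i j = -1) ∧ x = |A.det|} ((n : ℝ) ^ (n / 2)) := by
  intro n hn
  simp only [List.mem_cons, List.not_mem_nil, or_false] at hn
  rcases hn with rfl | rfl | rfl | rfl | rfl | rfl | rfl | rfl | rfl | rfl |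
    rfl | rfl | rfl
  · exact Pool.Agent.TH512.MaxDet.greatest (by norm_num) (by decide) Pool.Agent.TH786.Had.N167.had
  · exact Pool.Agent.TH512.MaxDet.greatest (by norm_num) (by decide) Pool.Agent.TH394.N179.had
  · exact Pool.Agent.TH512.MaxDet.greatest (by norm_num) (by decide) Pool.Agent.TH394.N223.had
  · exact Pool.Agent.TH512.MaxDet.greatest (by norm_num) (by decide) Pool.Agent.TH786.Had.N283.had
  · exact Pool.Agent.TH512.MaxDet.greatest (by norm_num) (by decide) Pool.Agent.TH394.N311.had
  · exact Pool.Agent.TH512.MaxDet.greatest (by norm_num) (by decide) Pool.Agent.TH394.N347.had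
  · exact Pool.Agent.TH512.MaxDet.greatest (by norm_num) (by decide) Pool.Agent.TH510.Had.N359.had
  · exact Pool.Agent.TH512.MaxDet.greatest (by norm_num) (by decide) Pool.Agent.TH394.N419.had
  · exact Pool.Agent.TH512.MaxDet.greatest (by norm_num) (by decide) Pool.Agent.TH394.N443.had
  · exact Pool.Agent.TH512.MaxDet.greatest (by norm_num) (by decide) Pool.Agent.TH394.N479.had
  · exact Pool.Agent.TH512.MaxDet.greatest (by norm_num) (by decide) Pool.Agent.TH394.N487.had
  · exact Pool.Agent.TH512.MaxDet.greatest (by norm_num) (by decide) Pool.Agent.TH394.N491.had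
  · exact Pool.Agent.TH512.MaxDet.greatest (by norm_num) (by decide) Pool.Agent.TH394.N919.had

end Pool.Agent.Results.MP_008adc_co.NewExactValues
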